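import Mathlib

set_option autoImplicit false

namespace Pool.Agent.Results.MP_f4bed7_co.TreeNetCheeger

open scoped ENNReal

/-- The edge boundary of a finite vertex set `A`: the edges of `G` with exactly one endpoint in
`A`. -/
def edgeBoundary {V : Type} (G : SimpleGraph V) (A : Finset V) : Set (Sym2 V) :=
  {e | e ∈ G.edgeSet ∧ ∃ a b : V, e = s(a, b) ∧ a ∈ A ∧ b ∉ A}

/-- The Cheeger constant: the infimum of `|∂A| / |A|` over finite nonempty vertex sets `A`. -/
noncomputable def cheeger {V : Type} (G : SimpleGraph V) : ℝ≥0∞ :=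
  ⨅ (A : Finset V) (_ : A.Nonempty), ((edgeBoundary G A).encard : ℝ≥0∞) / (A.card : ℝ≥0∞)

/-- A `k`-net: a set of vertices maximal under inclusion among the sets whose points are pairwise
at distance at least `k`. -/
def IsNet {V : Type} (G : SimpleGraph V) (k : ℕ) (S : Set V) : Prop :=
  Maximal (fun S' : Set V => ∀ x ∈ S', ∀ y ∈ S', x ≠ y → k ≤ G.dist x y) S

/-- The `k`-net graph on `S`: distinct points of `S` are adjacent when their distance in `G` is at
most `2 * k`. -/
def netGraph {V : Type} (G : SimpleGraph V) (k : ℕ) (S : Set V) : SimpleGraph S where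
  Adj u v := u ≠ v ∧ G.dist u.1 v.1 ≤ 2 * k
  symm := ⟨by
    rintro u v ⟨h1, h2⟩
    exact ⟨h1.symm, by rw [SimpleGraph.dist_comm]; exact h2⟩⟩
  loopless := ⟨fun u h => h.1 rfl⟩

section Tree

variable {V : Type} {T : SimpleGraph V}

lemma parent_unique (hT : T.IsTree) {o w y y' : V} (h : T.Adj y w) (h' : T.Adj y' w)
    (hd : T.dist o w = T.dist o y + 1) (hd' : T.dist o w = T.dist o y' + 1) : y = y' := by
  obtain ⟨q, hq⟩ := hT.connected.exists_walk_length_eq_dist o y
  obtain ⟨q', hq'⟩ := hT.connected.exists_walk_length_eq_dist o y'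
  have hp : (q.concat h).IsPath := by
    apply SimpleGraph.Walk.isPath_of_length_eq_dist
    rw [SimpleGraph.Walk.length_concat, hq, hd]
  have hp' : (q'.concat h').IsPath := by
    apply SimpleGraph.Walk.isPath_of_length_eq_dist
    rw [SimpleGraph.Walk.length_concat, hq', hd']
  have he := (hT.existsUnique_path o w).unique hp hp'
  have := congrArg SimpleGraph.Walk.penultimate he
  simpa using this

/-- `w` lies on the geodesic from `o` to `x` -/
def Bt (T : SimpleGraph V) (o w x : V) : Prop := T.dist o x = T.dist o w + T.dist w x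

lemma bt_trans (hT : T.IsTree) {o w x y : V} (h1 : Bt T o w x) (h2 : Bt T o x y) :
    Bt T o w y ∧ T.dist w y = T.dist w x + T.dist x y := by
  unfold Bt at *
  have t1 := hT.connected.dist_triangle (u := w) (v := x) (w := y)
  have t2 := hT.connected.dist_triangle (u := o) (v := w) (w := y)
  constructor <;> omega

lemma exists_closer (hT : T.IsTree) {x w : V} (hne : x ≠ w) :
    ∃ z, T.Adj z x ∧ T.dist w x = T.dist w z + 1 := by
  obtain ⟨p, hp⟩ := hT.connected.exists_walk_length_eq_dist x w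
  cases p with
  | nil => exact absurd rfl hne
  | cons h q =>
    rename_i z
    refine ⟨z, h.symm, ?_⟩
    rw [SimpleGraph.Walk.length_cons] at hp
    have h1 : T.dist z w ≤ q.length := SimpleGraph.dist_le q
    have h2 := hT.connected.dist_triangle (u := x) (v := z) (w := w)
    have h3 : T.dist x z = 1 := SimpleGraph.dist_eq_one_iff_adj.2 h
    rw [SimpleGraph.dist_comm (u := w) (v := x), SimpleGraph.dist_comm (u := w) (v := z)]
    omega

lemma adj_dist (hT : T.IsTree) (o : V) {y z : V} (h : T.Adj y z) :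
    T.dist o y = T.dist o z + 1 ∨ T.dist o z = T.dist o y + 1 :=
  hT.dist_eq_dist_add_one_of_adj o h

lemma anc_step (hT : T.IsTree) {o w y z : V} (h : Bt T o w y) (hne : w ≠ y) (hz : T.Adj z y)
    (hd : T.dist o y = T.dist o z + 1) : Bt T o w z ∧ T.dist w y = T.dist w z + 1 := by
  obtain ⟨z', hz', hd'⟩ := exists_closer hT hne.symm
  have h1 := hT.connected.dist_triangle (u := o) (v := w) (w := z')
  have h2 := adj_dist hT o hz'
  have h3 : T.dist o y = T.dist o z' + 1 := by
    unfold Bt at h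
    omega
  have : z = z' := parent_unique hT hz hz' hd h3
  subst this
  unfold Bt at *
  constructor <;> omega

lemma comparable (hT : T.IsTree) {o u v : V} : ∀ (n : ℕ) {x : V}, T.dist v x = n → Bt T o u x →
    Bt T o v x → T.dist o u ≤ T.dist o v → Bt T o u v := by
  intro n
  induction n with
  | zero =>
    intro x hn hu _ _
    have : v = x := hT.connected.dist_eq_zero_iff.1 hn
    rw [this]; exact hu
  | succ n ih =>
    intro x hn hu hv hle
    have hvx : v ≠ x := by
      rintro rfl
      simp at hn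
    have hux : u ≠ x := by
      rintro rfl
      unfold Bt at hv
      omega
    have hox : x ≠ o := by
      rintro rfl
      unfold Bt at hv
      simp at hv
      omega
    obtain ⟨z, hz, hd⟩ := exists_closer hT hox
    obtain ⟨hv', hv''⟩ := anc_step hT hv hvx hz hd
    obtain ⟨hu', _⟩ := anc_step hT hu hux hz hd
    exact ih (by omega) hu' hv' hle

lemma same_level (hT : T.IsTree) {o u v x : V} (hu : Bt T o u x) (hv : Bt T o v x)
    (h : T.dist o u = T.dist o v) : u = v := by
  have := comparable hT _ rfl hu hv h.le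
  unfold Bt at this
  apply hT.connected.dist_eq_zero_iff.1
  omega

/-- going out of the part below `w` passes through the parent of `w` -/
lemma cut (hT : T.IsTree) {o w u s : V} (hwu : Bt T o w u) (hws : ¬ Bt T o w s) :
    ∃ z, T.Adj z w ∧ T.dist o w = T.dist o z + 1 ∧ T.dist u s = T.dist u z + T.dist z s := by
  classical
  obtain ⟨p, hp⟩ := hT.connected.exists_walk_length_eq_dist u s
  obtain ⟨d, hd, hdf, hds⟩ := p.exists_boundary_dart {x | Bt T o w x} hwu hws
  have hadj : T.Adj d.fst d.snd := d.adj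
  simp only [Set.mem_ofPred_eq] at hdf hds
  have hcase := adj_dist hT o hadj
  have hparent : T.dist o d.fst = T.dist o d.snd + 1 := by
    rcases hcase with h | h
    · exact h
    · exfalso
      apply hds
      have hb : Bt T o d.fst d.snd := by
        unfold Bt
        rw [h, SimpleGraph.dist_eq_one_iff_adj.2 hadj]
      exact (bt_trans hT hdf hb).1
  have hw : w = d.fst := by
    by_contra hne
    exact hds (anc_step hT hdf hne hadj.symm hparent).1
  refine ⟨d.snd, ?_, ?_, ?_⟩
  · rw [hw]; exact hadj.symm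
  · rw [hw]; exact hparent
  · have hz : d.snd ∈ p.support := SimpleGraph.Walk.dart_snd_mem_support_of_mem_darts p hd
    have h1 := congrArg SimpleGraph.Walk.length (p.take_spec hz)
    rw [SimpleGraph.Walk.length_append] at h1
    have h2 := SimpleGraph.dist_le (p.takeUntil _ hz)
    have h3 := SimpleGraph.dist_le (p.dropUntil _ hz)
    have h4 := hT.connected.dist_triangle (u := u) (v := d.snd) (w := s)
    omega

/-- children of `w` with respect to the root `o` -/
lemma children (hT : T.IsTree) {d : ℕ} (hd : ∀ v, (T.neighborSet v).encard = d) (o w : V) :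
    ∃ C : Finset V, (∀ x, x ∈ C ↔ T.Adj w x ∧ T.dist o x = T.dist o w + 1) ∧ d - 1 ≤ C.card := by
  classical
  have hfin : (T.neighborSet w).Finite := by
    apply Set.finite_of_encard_eq_coe (hd w)
  let N := hfin.toFinset
  have hN : ∀ x, x ∈ N ↔ T.Adj w x := by
    intro x; simp [N]
  have hNc : N.card = d := by
    have h1 : ((N : Set V)).encard = d := by
      rw [Set.Finite.coe_toFinset]; exact hd w
    rw [Set.encard_coe_eq_coe_finsetCard] at h1
    exact_mod_cast h1
  refine ⟨N.filter (fun x => T.dist o x = T.dist o w + 1), ?_, ?_⟩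
  · intro x; simp [hN]
  · have h1 : (N.filter (fun x => ¬ T.dist o x = T.dist o w + 1)).card ≤ 1 := by
      rw [Finset.card_le_one]
      intro y hy y' hy'
      rw [Finset.mem_filter, hN] at hy hy'
      have e1 := adj_dist hT o hy.1
      have e2 := adj_dist hT o hy'.1
      refine parent_unique (o := o) hT hy.1.symm hy'.1.symm ?_ ?_
      · rcases e1 with h | h
        · exact h
        · exact absurd h hy.2
      · rcases e2 with h | h
        · exact h
        · exact absurd h hy'.2
    have h2 := Finset.card_filter_add_card_filter_not (s := N) (fun x => T.dist o x = T.dist o w + 1)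
    omega

lemma level (hT : T.IsTree) {d : ℕ} (hd : ∀ v, (T.neighborSet v).encard = d) (o a : V) (j : ℕ) :
    ∃ D : Finset V, (∀ w ∈ D, Bt T o a w ∧ T.dist a w = j) ∧ (d - 1) ^ j ≤ D.card := by
  classical
  induction j with
  | zero =>
    refine ⟨{a}, ?_, by simp⟩
    intro w hw
    rw [Finset.mem_singleton] at hw
    subst hw
    simp [Bt]
  | succ j ih =>
    obtain ⟨D, hD, hc⟩ := ih
    choose C hC hCc using children hT hd o
    refine ⟨D.biUnion C, ?_, ?_⟩
    · intro x hx
      rw [Finset.mem_biUnion] at hx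
      obtain ⟨w, hw, hxw⟩ := hx
      obtain ⟨h1, h2⟩ := (hC w x).1 hxw
      obtain ⟨h3, h4⟩ := hD w hw
      have hb : Bt T o w x := by
        unfold Bt
        rw [h2, SimpleGraph.dist_eq_one_iff_adj.2 h1]
      obtain ⟨h5, h6⟩ := bt_trans hT h3 hb
      refine ⟨h5, ?_⟩
      rw [h6, h4, SimpleGraph.dist_eq_one_iff_adj.2 h1]
    · rw [Finset.card_biUnion]
      · calc (d - 1) ^ (j + 1) = (d - 1) ^ j * (d - 1) := pow_succ _ _
          _ ≤ D.card * (d - 1) := Nat.mul_le_mul_right _ hc
          _ = ∑ _w ∈ D, (d - 1) := by rw [Finset.sum_const, smul_eq_mul]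
          _ ≤ ∑ w ∈ D, (C w).card := Finset.sum_le_sum fun w _ => hCc w
      · intro w _ w' _ hne
        change Disjoint (C w) (C w')
        rw [Finset.disjoint_left]
        intro x hx hx'
        obtain ⟨h1, h2⟩ := (hC w x).1 hx
        obtain ⟨h3, h4⟩ := (hC w' x).1 hx'
        exact hne (parent_unique hT h1 h3 h2 h4)

lemma net_covers {k : ℕ} (hk : 1 ≤ k) {S : Set V} (hS : IsNet T k S) (u : V) :
    ∃ s ∈ S, T.dist u s < k := by
  by_contra hn
  push Not at hn
  have hu : u ∈ S := by
    have hprop : ∀ x ∈ insert u S, ∀ y ∈ insert u S, x ≠ y → k ≤ T.dist x y := by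
      intro x hx y hy hxy
      rcases Set.mem_insert_iff.1 hx with rfl | hx'
      · rcases Set.mem_insert_iff.1 hy with rfl | hy'
        · exact absurd rfl hxy
        · exact hn y hy'
      · rcases Set.mem_insert_iff.1 hy with rfl | hy'
        · rw [SimpleGraph.dist_comm]; exact hn x hx'
        · exact hS.prop x hx' y hy' hxy
    exact hS.2 hprop (Set.subset_insert u S) (Set.mem_insert u S)
  have := hn u hu
  simp at this
  omega

/-- below each `w` at distance `k/2+1` below `a` there is a net point within `2k` of `a` -/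
lemma net_below (hT : T.IsTree) {d : ℕ} (hd3 : 3 ≤ d)
    (hd : ∀ v, (T.neighborSet v).encard = d) {k : ℕ} (hk : 1 ≤ k) {S : Set V}
    (hS : IsNet T k S) {o a w : V} (ha : a ∈ S) (haw : Bt T o a w) (hj : T.dist a w = k / 2 + 1) :
    ∃ s ∈ S, Bt T o w s ∧ T.dist a s ≤ 2 * k := by
  obtain ⟨D, hD, hDc⟩ := level hT hd o w (k - (k / 2 + 1))
  have hpos : 0 < D.card := lt_of_lt_of_le (pow_pos (by omega) _) hDc
  obtain ⟨u, hu⟩ := Finset.card_pos.1 hpos
  obtain ⟨hwu, hdwu⟩ := hD u hu
  obtain ⟨hau, hdau⟩ := bt_trans hT haw hwu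
  obtain ⟨s, hs, hus⟩ := net_covers hk hS u
  have hjk : k / 2 + 1 ≤ k ∨ k = 1 := by omega
  have hdau' : T.dist a u = k := by omega
  refine ⟨s, hs, ?_, ?_⟩
  · by_contra hws
    obtain ⟨z, hz, hzd, hcut⟩ := cut hT hwu hws
    have haw' : a ≠ w := by
      rintro rfl
      simp at hj
    obtain ⟨haz, hdaz⟩ := anc_step hT haw haw' hz hzd
    have hzw : Bt T o z w := by
      unfold Bt
      rw [hzd, SimpleGraph.dist_eq_one_iff_adj.2 hz]
    obtain ⟨_, hdzu⟩ := bt_trans hT hzw hwu
    rw [SimpleGraph.dist_eq_one_iff_adj.2 hz] at hdzu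
    have c1 : T.dist u z = T.dist z u := SimpleGraph.dist_comm
    have t1 := hT.connected.dist_triangle (u := a) (v := z) (w := s)
    by_cases hsa : a = s
    · subst hsa
      have : T.dist u a = T.dist a u := SimpleGraph.dist_comm
      omega
    · have := hS.prop a ha s hs hsa
      omega
  · have t1 := hT.connected.dist_triangle (u := a) (v := u) (w := s)
    omega

theorem main_bound (hT : T.IsTree) {d : ℕ} (hd3 : 3 ≤ d)
    (hd : ∀ v, (T.neighborSet v).encard = d) {k : ℕ} (hk : 1 ≤ k) {S : Set V}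
    (hS : IsNet T k S) (A : Finset S) (hA : A.Nonempty) :
    ((((d - 1) ^ (k / 2 + 1) - 1) * A.card : ℕ) : ℕ∞) ≤ (edgeBoundary (netGraph T k S) A).encard := by
  classical
  obtain ⟨o', ho'⟩ := hA
  have hne : Nonempty S := ⟨o'⟩
  let o : V := o'.1
  choose D hD hDc using fun a : V => level hT hd o a (k / 2 + 1)
  -- all pairs
  let P : Finset ((_ : S) × V) := A.sigma (fun a => D a.1)
  have hP : A.card * (d - 1) ^ (k / 2 + 1) ≤ P.card := by
    rw [Finset.card_sigma, ← smul_eq_mul, ← Finset.sum_const]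
    exact Finset.sum_le_sum fun a _ => hDc a.1
  have hPm : ∀ q ∈ P, q.1 ∈ A ∧ Bt T o q.1.1 q.2 ∧ T.dist q.1.1 q.2 = k / 2 + 1 := by
    intro q hq
    rw [Finset.mem_sigma] at hq
    exact ⟨hq.1, hD _ _ hq.2⟩
  let bad := P.filter (fun q => ∃ x ∈ A, Bt T o q.2 x.1)
  let gd := P.filter (fun q => ¬ ∃ x ∈ A, Bt T o q.2 x.1)
  have hsplit : bad.card + gd.card = P.card := Finset.card_filter_add_card_filter_not _
  -- bad pairs
  have hbad : bad.card ≤ A.card := by
    have hex : ∀ q : (_ : S) × V, q ∈ bad → ∃ x ∈ A, Bt T o q.2 x.1 ∧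
        ∀ y ∈ A, Bt T o q.2 y.1 → T.dist o x.1 ≤ T.dist o y.1 := by
      intro q hq
      rw [Finset.mem_filter] at hq
      obtain ⟨x, hx, hxb⟩ := hq.2
      obtain ⟨m, hm, hmin⟩ := Finset.exists_min_image (A.filter (fun y => Bt T o q.2 y.1))
        (fun y => T.dist o y.1) ⟨x, Finset.mem_filter.2 ⟨hx, hxb⟩⟩
      rw [Finset.mem_filter] at hm
      exact ⟨m, hm.1, hm.2, fun y hy hyb => hmin y (Finset.mem_filter.2 ⟨hy, hyb⟩)⟩
    choose! f hf1 hf2 hf3 using hex
    apply Finset.card_le_card_of_injOn f (fun q hq => hf1 q hq)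
    have key : ∀ q ∈ bad, ∀ q' ∈ bad, f q = f q' → ¬ T.dist o q.1.1 < T.dist o q'.1.1 := by
      intro q hq q' hq' hff hlt
      have hq0 := hPm q (Finset.mem_filter.1 hq).1
      have hq0' := hPm q' (Finset.mem_filter.1 hq').1
      have b1 := hf2 q hq
      have b2 := hf2 q' hq'
      rw [← hff] at b2
      obtain ⟨c1, _⟩ := bt_trans hT hq0.2.1 b1
      obtain ⟨c2, _⟩ := bt_trans hT hq0'.2.1 b2
      have c3 := comparable hT _ rfl c1 c2 hlt.le
      have hne : q.1.1 ≠ q'.1.1 := by
        intro h; rw [h] at hlt; omega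
      have c4 := hS.prop q.1.1 q.1.2 q'.1.1 q'.1.2 hne
      have c5 : T.dist o q.2 ≤ T.dist o q'.1.1 := by
        have := hq0.2.1
        unfold Bt at this c3
        omega
      have c6 := comparable hT _ rfl b1 c2 c5
      have c7 := hf3 q hq q'.1 hq0'.1 c6
      have c8 := hq0'.2.1
      unfold Bt at c8 b2
      omega
    intro q hq q' hq' hff
    have h1 := key q hq q' hq' hff
    have h2 := key q' hq' q hq hff.symm
    have heq : T.dist o q.1.1 = T.dist o q'.1.1 := by omega
    have hq0 := hPm q (Finset.mem_filter.1 hq).1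
    have hq0' := hPm q' (Finset.mem_filter.1 hq').1
    have b1 := hf2 q hq
    have b2 := hf2 q' hq'
    rw [← hff] at b2
    obtain ⟨c1, _⟩ := bt_trans hT hq0.2.1 b1
    obtain ⟨c2, _⟩ := bt_trans hT hq0'.2.1 b2
    have e1 : q.1.1 = q'.1.1 := same_level hT c1 c2 heq
    have e2 : q.2 = q'.2 := by
      apply same_level hT b1 b2
      have h3 := hq0.2.1
      have h4 := hq0'.2.1
      unfold Bt at h3 h4
      omega
    have e3 : q.1 = q'.1 := Subtype.ext e1
    obtain ⟨q1, q2⟩ := q
    obtain ⟨q1', q2'⟩ := q'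
    simp only at e2 e3
    subst e2 e3
    rfl
  -- good pairs
  have hgood : (gd.card : ℕ∞) ≤ (edgeBoundary (netGraph T k S) A).encard := by
    have hex : ∀ q : (_ : S) × V, q ∈ gd → ∃ s : S, Bt T o q.2 s.1 ∧ T.dist q.1.1 s.1 ≤ 2 * k ∧
        s ∉ A := by
      intro q hq
      rw [Finset.mem_filter] at hq
      obtain ⟨h1, h2, h3⟩ := hPm q hq.1
      obtain ⟨s, hs, hb, hd'⟩ := net_below hT hd3 hd hk hS q.1.2 h2 h3
      exact ⟨⟨s, hs⟩, hb, hd', fun hsA => hq.2 ⟨⟨s, hs⟩, hsA, hb⟩⟩
    choose! f hf1 hf2 hf3 using hex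
    have hinj : Set.InjOn (fun q : (_ : S) × V => s(q.1, f q)) (gd : Set ((_ : S) × V)) := by
      intro q hq q' hq' h
      have hq0 := hPm q (Finset.mem_filter.1 hq).1
      have hq0' := hPm q' (Finset.mem_filter.1 hq').1
      have h' : q.1 = q'.1 ∧ f q = f q' := by
        rcases Sym2.eq_iff.1 h with h | h
        · exact h
        · exfalso
          apply hf3 q' hq'
          rw [← h.1]
          exact hq0.1
      have b1 := hf1 q hq
      have b2 := hf1 q' hq'
      rw [← h'.2] at b2
      have e2 : q.2 = q'.2 := by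
        apply same_level hT b1 b2
        have h3 := hq0.2.1
        have h4 := hq0'.2.1
        have h5 := hq0.2.2
        have h6 := hq0'.2.2
        rw [← h'.1] at h4 h6
        unfold Bt at h3 h4
        omega
      have e3 := h'.1
      obtain ⟨q1, q2⟩ := q
      obtain ⟨q1', q2'⟩ := q'
      simp only at e2 e3
      subst e2 e3
      rfl
    rw [← Set.encard_coe_eq_coe_finsetCard, ← hinj.encard_image]
    apply Set.encard_le_encard
    rintro _ ⟨q, hq, rfl⟩
    have hq0 := hPm q (Finset.mem_filter.1 hq).1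
    refine ⟨?_, q.1, f q, rfl, hq0.1, hf3 q hq⟩
    rw [SimpleGraph.mem_edgeSet]
    refine ⟨?_, hf2 q hq⟩
    intro h
    apply hf3 q hq
    rw [← h]
    exact hq0.1
  refine le_trans ?_ hgood
  have : ((d - 1) ^ (k / 2 + 1) - 1) * A.card ≤ gd.card := by
    rw [Nat.sub_mul, one_mul, mul_comm]
    omega
  exact_mod_cast this

end Tree

theorem cheeger_bound {V : Type} {T : SimpleGraph V} (hT : T.IsTree) {d : ℕ} (hd3 : 3 ≤ d)
    (hd : ∀ v, (T.neighborSet v).encard = d) {k : ℕ} (hk : 1 ≤ k) {S : Set V}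
    (hS : IsNet T k S) : (((d - 1) ^ (k / 2 + 1) - 1 : ℕ) : ℝ≥0∞) ≤ cheeger (netGraph T k S) := by
  unfold cheeger
  refine le_iInf fun A => le_iInf fun hA => ?_
  rw [ENNReal.le_div_iff_mul_le]
  · have h := main_bound hT hd3 hd hk hS A hA
    have h2 := ENat.toENNReal_le.2 h
    push_cast at h2 ⊢
    simpa using h2
  · left
    simpa using hA.ne_empty
  · left
    simp

lemma exists_net {V : Type} (T : SimpleGraph V) (k : ℕ) : ∃ S : Set V, IsNet T k S := by
  have h := zorn_subset {S' : Set V | ∀ x ∈ S', ∀ y ∈ S', x ≠ y → k ≤ T.dist x y} ?_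
  · obtain ⟨S, hS⟩ := h
    exact ⟨S, hS⟩
  · intro c hc hchain
    refine ⟨⋃₀ c, ?_, fun s hs => Set.subset_sUnion_of_mem hs⟩
    rintro x ⟨s, hs, hx⟩ y ⟨t, ht, hy⟩ hxy
    rcases hchain.total hs ht with h | h
    · exact hc ht x (h hx) y hy hxy
    · exact hc hs x hx y (h hy) hxy

/-- **Cheeger constants of `k`-net graphs of regular trees.** For every `d ≥ 3`, every `d`-regular
tree `T` and every `k ≥ 1`, each `k`-net graph of `T` has Cheeger constant at least
`(d - 1) ^ (k / 2 + 1) - 1` (with `k / 2` rounded down).  Consequently the infimum over all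
`k ≥ 1` and all `k`-nets is positive, and the infimum over all `k`-nets tends to infinity
with `k`.  (`k`-nets exist for every `k`.) -/
theorem result :
    ∀ (d : ℕ), 3 ≤ d → ∀ (V : Type) (T : SimpleGraph V), T.IsTree →
      (∀ v : V, (T.neighborSet v).encard = d) →
      (∀ k : ℕ, 1 ≤ k → ∀ S : Set V, IsNet T k S →
        (((d - 1) ^ (k / 2 + 1) - 1 : ℕ) : ℝ≥0∞) ≤ cheeger (netGraph T k S)) ∧
      0 < (⨅ (k : ℕ) (_ : 1 ≤ k) (S : Set V) (_ : IsNet T k S), cheeger (netGraph T k S)) ∧
      Filter.Tendsto (fun k : ℕ => ⨅ (S : Set V) (_ : IsNet T k S), cheeger (netGraph T k S))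
        Filter.atTop (nhds ⊤) ∧
      (∀ k : ℕ, ∃ S : Set V, IsNet T k S) := by
  intro d hd3 V T hT hd
  have hb : ∀ k : ℕ, 1 ≤ k → ∀ S : Set V, IsNet T k S →
        (((d - 1) ^ (k / 2 + 1) - 1 : ℕ) : ℝ≥0∞) ≤ cheeger (netGraph T k S) :=
    fun k hk S hS => cheeger_bound hT hd3 hd hk hS
  have hge : ∀ k : ℕ, k / 2 + 1 ≤ (d - 1) ^ (k / 2 + 1) - 1 := by
    intro k
    have h1 : k / 2 + 1 < 2 ^ (k / 2 + 1) := Nat.lt_two_pow_self
    have h2 : 2 ^ (k / 2 + 1) ≤ (d - 1) ^ (k / 2 + 1) := Nat.pow_le_pow_left (by omega) _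
    omega
  refine ⟨hb, ?_, ?_, exists_net T⟩
  · refine lt_of_lt_of_le (show (0 : ℝ≥0∞) < 1 by norm_num) ?_
    refine le_iInf fun k => le_iInf fun hk => le_iInf fun S => le_iInf fun hS => ?_
    refine le_trans ?_ (hb k hk S hS)
    have := hge k
    exact_mod_cast (by omega : 1 ≤ (d - 1) ^ (k / 2 + 1) - 1)
  · rw [ENNReal.tendsto_nhds_top_iff_nat]
    intro n
    filter_upwards [Filter.eventually_ge_atTop (2 * n + 1)] with k hk
    have h1 : ((n + 1 : ℕ) : ℝ≥0∞) ≤ ⨅ (S : Set V) (_ : IsNet T k S), cheeger (netGraph T k S) := by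
      refine le_iInf fun S => le_iInf fun hS => ?_
      refine le_trans ?_ (hb k (by omega) S hS)
      have := hge k
      exact_mod_cast (by omega : n + 1 ≤ (d - 1) ^ (k / 2 + 1) - 1)
    refine lt_of_lt_of_le ?_ h1
    exact_mod_cast Nat.lt_succ_self n

end Pool.Agent.Results.MP_f4bed7_co.TreeNetCheeger
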